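import Pool.Agent.helper32.PN.Spec

set_option autoImplicit false

namespace Pool.Agent.PN

open Module Polynomial Pool.Agent.helper27.PC

/-- A0: the values for the parts `1` at the states with a long column. -/
theorem A0 (hK1 : K1_stmt) (hPHI : PHI_stmt) (hEE : EE_stmt) : A0_stmt := by
  intro t s K q i T hi hT k hk
  have hm : (q + i) + K < k + q := by omega
  have hsub : k + q - (q + i) + i = k := by omega
  obtain ⟨hP1, hP2, hP3⟩ := hPHI s K (k + q) (q + i) i T hi hm hT
  rw [hsub] at hP1 hP2 hP3
  have hE := hEE t s K (k + q) (q + i) i T hm hT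
  obtain ⟨hK2, hK3⟩ := (hK1 t (k + q) k (emb s K (k + q) (q + i) T)).2 hP1
  refine ⟨np k (vac (k + q)) (emb s K (k + q) (q + i) T),
    e1 t (k + q) k (emb s K (k + q) (q + i) T), ?_, ?_, hP2, hP3⟩
  · rw [← hK3]
    unfold Af
    simp only [List.sum_nil, Nat.add_zero, List.nil_append]
  · rw [hK2]
    push_cast at hE ⊢
    linear_combination hE

end Pool.Agent.PN
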